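import Pool.Agent.Q149.LargeGirth

/-! # MP_b9e70b_co: monochromatic packings in edge-coloured dense regular graphs

Q1 is false.  For every connected bipartite graph `H` with two classes of the same size that is
not a tree (for instance an even cycle), for every number `r ≥ 2` of colours and every
`0 < c ≤ 1/2`, no constant `C` works. -/

namespace Pool.Agent.Results.MP_b9e70b_co.BalancedCyclicFails

/-- A monochromatic `H`-packing with `k` copies in the graph `G` whose edges are coloured by `χ`
(only the values of `χ` on the edges of `G` matter): vertex-disjoint copies `f i` of `H` in `G`,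
each of them monochromatic, where different copies may use different colours. -/
structure MonoPacking {U V : Type} (H : SimpleGraph U) (G : SimpleGraph V) {r : ℕ}
    (χ : Sym2 V → Fin r) (k : ℕ) where
  /-- the `i`-th copy of `H` -/
  f : Fin k → U → V
  inj : ∀ i, Function.Injective (f i)
  hom : ∀ i u v, H.Adj u v → G.Adj (f i u) (f i v)
  mono : ∀ i, ∃ c : Fin r, ∀ u v, H.Adj u v → χ s(f i u, f i v) = c
  disj : ∀ i j, i ≠ j → ∀ u v, f i u ≠ f j v

/-- The vertices of `G` which the packing leaves uncovered. -/
def MonoPacking.uncovered {U V : Type} {H : SimpleGraph U} {G : SimpleGraph V} {r : ℕ}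
    {χ : Sym2 V → Fin r} {k : ℕ} (P : MonoPacking H G χ k) : Set V :=
  {v | ∀ i u, P.f i u ≠ v}

/-- The assertion of Q1 for a given graph `H`, number `r` of colours and density `c`: there is a
constant `C > 0` such that in every `r`-edge-coloured `d`-regular graph `G` on `n` vertices with
`d ≥ c n` some monochromatic `H`-packing leaves at most `C` vertices uncovered. -/
def Holds {U : Type} (H : SimpleGraph U) (r : ℕ) (c : ℝ) : Prop :=
  ∃ C : ℝ, 0 < C ∧ ∀ (V : Type) [Fintype V] (G : SimpleGraph V) (d : ℕ),
    (∀ v, (G.neighborSet v).ncard = d) → c * Fintype.card V ≤ d →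
    ∀ χ : Sym2 V → Fin r, ∃ (k : ℕ) (P : MonoPacking H G χ k), (P.uncovered.ncard : ℝ) ≤ C

/-- Q1: the assertion for every bipartite graph `H`, every `r ≥ 2` and every `0 < c < 1`. -/
def Q1 : Prop :=
  ∀ (U : Type) [Fintype U] (H : SimpleGraph U), H.Colorable 2 →
    ∀ (r : ℕ) (c : ℝ), 2 ≤ r → 0 < c → c < 1 → Holds H r c

section construction

variable {A : Type} (F : SimpleGraph A) (m : ℕ)

/-- the join of `F` and the empty graph on `m` vertices -/
def joinEmpty : SimpleGraph (A ⊕ Fin m) where
  Adj x y := match x, y with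
    | .inl a, .inl b => F.Adj a b
    | .inl _, .inr _ => True
    | .inr _, .inl _ => True
    | .inr _, .inr _ => False
  symm := ⟨by
    rintro (a | a) (b | b) h
    · exact SimpleGraph.Adj.symm h
    · trivial
    · trivial
    · exact h⟩
  loopless := ⟨by
    rintro (a | a) h
    · exact F.irrefl h
    · exact h⟩

theorem neighborSet_inl (a : A) : (joinEmpty F m).neighborSet (.inl a) =
    Sum.inl '' (F.neighborSet a) ∪ Set.range (Sum.inr : Fin m → A ⊕ Fin m) := by
  ext (b | b)
  · simp [joinEmpty]
  · simp [joinEmpty]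

theorem neighborSet_inr (b : Fin m) : (joinEmpty F m).neighborSet (.inr b) =
    Set.range (Sum.inl : A → A ⊕ Fin m) := by
  ext (b | b)
  · simp [joinEmpty]
  · simp [joinEmpty]

theorem ncard_inl [Fintype A] (a : A) : ((joinEmpty F m).neighborSet (.inl a)).ncard =
    (F.neighborSet a).ncard + m := by
  rw [neighborSet_inl, Set.ncard_union_eq, Set.ncard_image_of_injective _ Sum.inl_injective,
    ← Set.image_univ, Set.ncard_image_of_injective _ Sum.inr_injective]
  · simp [Set.ncard_univ]
  · rw [Set.disjoint_left]
    rintro _ ⟨c, -, rfl⟩ ⟨d, hd⟩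
    simp at hd

theorem ncard_inr [Fintype A] (b : Fin m) : ((joinEmpty F m).neighborSet (.inr b)).ncard =
    Fintype.card A := by
  rw [neighborSet_inr, ← Set.image_univ, Set.ncard_image_of_injective _ Sum.inl_injective]
  simp [Set.ncard_univ]

open Classical in
/-- colour `0` for the edges of `F`, colour `1` for the edges of the join -/
noncomputable def colouring {r : ℕ} (hr : 2 ≤ r) : Sym2 (A ⊕ Fin m) → Fin r := fun e =>
  if ∀ x ∈ e, ∃ a, x = Sum.inl a then ⟨0, by omega⟩ else ⟨1, by omega⟩

theorem colouring_eq {r : ℕ} (hr : 2 ≤ r) (x y : A ⊕ Fin m) :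
    colouring m hr s(x, y) = ⟨0, by omega⟩ ↔ (∃ a, x = Sum.inl a) ∧ ∃ a, y = Sum.inl a := by
  classical
  unfold colouring
  split_ifs with h
  · rw [Sym2.ball] at h
    simp [h]
  · rw [Sym2.ball] at h
    simp only [h, iff_false]
    simp

end construction

/-- two proper 2-colourings of a connected graph agree up to swapping the colours -/
theorem colourings_eq {U : Type} {H : SimpleGraph U} (hH : H.Connected) (col side : U → Bool)
    (h1 : ∀ u v, H.Adj u v → col u ≠ col v) (h2 : ∀ u v, H.Adj u v → side u ≠ side v) :
    (∀ u, side u = col u) ∨ ∀ u, side u = !col u := by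
  obtain ⟨u₀⟩ := hH.nonempty
  have h : ∀ u, xor (side u) (col u) = xor (side u₀) (col u₀) := by
    intro u
    obtain ⟨p⟩ := hH.preconnected u u₀
    induction p with
    | nil => rfl
    | @cons a b c hab p ih =>
      rw [← ih]
      have e1 := h1 a b hab
      have e2 := h2 a b hab
      revert e1 e2
      cases side a <;> cases side b <;> cases col a <;> cases col b <;> simp
  cases h0 : xor (side u₀) (col u₀)
  · left
    intro u
    have := h u
    rw [h0] at this
    revert this
    cases side u <;> cases col u <;> simp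
  · right
    intro u
    have := h u
    rw [h0] at this
    revert this
    cases side u <;> cases col u <;> simp

theorem not_holds {U : Type} [Fintype U] (H : SimpleGraph U) (col : H.Coloring Bool)
    (hH : H.Connected) (hc : ¬ H.IsAcyclic)
    (hbal : {u | col u = true}.ncard = {u | col u = false}.ncard)
    (r : ℕ) (c : ℝ) (hr : 2 ≤ r) (_hc0 : 0 < c) (hc1 : c ≤ 1 / 2) : ¬ Holds H r c := by
  classical
  rintro ⟨C, hC, h⟩
  unfold SimpleGraph.IsAcyclic at hc
  push Not at hc
  obtain ⟨u₀, p₀, hp₀⟩ := hc
  obtain ⟨t, ht⟩ := exists_nat_gt C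
  obtain ⟨A, _, hA, F, hF, hg⟩ := Pool.Agent.Q149.LargeGirth.exists_regular t p₀.length
  obtain ⟨N, hN⟩ : ∃ N, N = Fintype.card A := ⟨_, rfl⟩
  have htN : t ≤ N := by
    obtain ⟨a⟩ := hA
    rw [← hF a, hN, ← Nat.card_eq_fintype_card]
    exact Set.ncard_le_card _
  obtain ⟨k, P, hP⟩ := h (A ⊕ Fin (N - t)) (joinEmpty F (N - t)) N
    (by
      rintro (a | b)
      · rw [ncard_inl, hF]; omega
      · rw [ncard_inr, hN])
    (by
      have h1 : ((Fintype.card (A ⊕ Fin (N - t)) : ℕ) : ℝ) ≤ 2 * N := by
        have : Fintype.card (A ⊕ Fin (N - t)) ≤ 2 * N := by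
          rw [Fintype.card_sum, Fintype.card_fin, ← hN]; omega
        exact_mod_cast this
      have h2 : (0 : ℝ) ≤ ((Fintype.card (A ⊕ Fin (N - t)) : ℕ) : ℝ) := by positivity
      nlinarith)
    (colouring (N - t) hr)
  -- no copy lives in the colour `0`
  have key : ∀ i u v, H.Adj u v → ¬ ((∃ a, P.f i u = Sum.inl a) ∧ ∃ a, P.f i v = Sum.inl a) := by
    intro i u v huv hcon
    obtain ⟨c, hc⟩ := P.mono i
    have h0 : c = ⟨0, by omega⟩ := by
      rw [← hc u v huv]
      exact (colouring_eq _ hr _ _).2 hcon
    have h1 : ∀ u v, H.Adj u v → (∃ a, P.f i u = Sum.inl a) ∧ ∃ a, P.f i v = Sum.inl a := by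
      intro u v huv
      rw [← colouring_eq _ hr, hc u v huv, h0]
    have h2 : ∀ u, ∃ a, P.f i u = Sum.inl a := by
      intro x
      by_cases hx : x = u
      · rw [hx]; exact hcon.1
      · obtain ⟨q⟩ := hH.preconnected x u
        cases q with
        | nil => exact absurd rfl hx
        | cons h q => exact (h1 _ _ h).1
    choose ψ hψ using h2
    have h3 : ∀ u v, H.Adj u v → F.Adj (ψ u) (ψ v) := by
      intro u v huv
      have := P.hom i u v huv
      rw [hψ u, hψ v] at this
      exact this
    have h4 : Function.Injective ψ := by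
      intro u v huv
      apply P.inj i
      rw [hψ u, hψ v, huv]
    have h5 := (SimpleGraph.Walk.isCycle_map_iff_of_injective (p := p₀)
      (f := (⟨ψ, fun {a b} hab => h3 a b hab⟩ : H →g F)) h4).2 hp₀
    have h6 := hg _ _ h5
    simp at h6
  -- every copy is balanced
  have side : ∀ i u v, H.Adj u v → (P.f i u).isLeft ≠ (P.f i v).isLeft := by
    intro i u v huv hcon
    have h1 := P.hom i u v huv
    have h2 := key i u v huv
    revert h1 h2 hcon
    rcases P.f i u with a | a <;> rcases P.f i v with b | b
    · intro _ _ h; exact absurd ⟨⟨a, rfl⟩, ⟨b, rfl⟩⟩ h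
    · simp
    · simp
    · intro _ h; exact absurd h (by simp [joinEmpty])
  obtain ⟨m, hm⟩ : ∃ m, m = {u | col u = true}.ncard := ⟨_, rfl⟩
  have hm' : m = {u | col u = false}.ncard := hm.trans hbal
  have hcount : ∀ i (b : Bool), (Finset.univ.filter fun u => (P.f i u).isLeft = b).card = m := by
    intro i b
    have hcard : ∀ b : Bool, (Finset.univ.filter fun u => col u = b).card = m := by
      intro b
      rw [← Set.ncard_coe_finset]
      cases b
      · rw [hm']; congr 1; ext u; simp
      · rw [hm]; congr 1; ext u; simp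
    rcases colourings_eq hH col (fun u => (P.f i u).isLeft) (fun u v huv => col.valid huv)
      (side i) with h | h
    · rw [← hcard b]
      congr 1
      ext u
      simp [h u]
    · rw [← hcard (!b)]
      congr 1
      ext u
      have h' : (P.f i u).isLeft = !col u := h u
      simp only [Finset.mem_filter, Finset.mem_univ, true_and, h']
      cases col u <;> cases b <;> simp
  have htot : ∀ b : Bool, (Finset.univ.filter fun x : Fin k × U =>
      (P.f x.1 x.2).isLeft = b).card = k * m := by
    intro b
    rw [Finset.card_filter, Fintype.sum_prod_type]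
    have : ∀ i : Fin k, (∑ u : U, if (P.f i u).isLeft = b then 1 else 0) = m := by
      intro i
      rw [← hcount i b, Finset.card_filter]
    simp [this]
  have ginj : Function.Injective fun x : Fin k × U => P.f x.1 x.2 := by
    rintro ⟨i, u⟩ ⟨j, v⟩ huv
    by_cases hij : i = j
    · subst hij
      exact Prod.ext rfl (P.inj i huv)
    · exact absurd huv (P.disj i j hij u v)
  -- the copies use at most `N - t` vertices on each side
  have hkm : k * m ≤ N - t := by
    rw [← htot false]
    have h1 : ((Finset.univ.filter fun x : Fin k × U => (P.f x.1 x.2).isLeft = false).image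
        fun x => P.f x.1 x.2) ⊆ Finset.univ.map ⟨Sum.inr, Sum.inr_injective⟩ := by
      intro y hy
      simp only [Finset.mem_image, Finset.mem_filter, Finset.mem_univ, true_and] at hy
      obtain ⟨x, hx, rfl⟩ := hy
      revert hx
      rcases P.f x.1 x.2 with a | a
      · simp
      · simp
    have h2 := Finset.card_le_card h1
    rw [Finset.card_image_of_injective _ ginj, Finset.card_map, Finset.card_univ,
      Fintype.card_fin] at h2
    exact h2
  have hunc : t ≤ P.uncovered.ncard := by
    have h1 : ((Finset.univ.map ⟨Sum.inl, Sum.inl_injective⟩ : Finset (A ⊕ Fin (N - t))) \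
        ((Finset.univ.filter fun x : Fin k × U => (P.f x.1 x.2).isLeft = true).image
          fun x => P.f x.1 x.2) : Finset _) ≤ P.uncovered.toFinset := by
      intro y hy
      rw [Set.mem_toFinset]
      intro i u hiu
      rw [Finset.mem_sdiff] at hy
      apply hy.2
      rw [Finset.mem_image]
      refine ⟨(i, u), ?_, hiu⟩
      rw [Finset.mem_filter]
      refine ⟨Finset.mem_univ _, ?_⟩
      have := hy.1
      rw [Finset.mem_map] at this
      obtain ⟨a, -, ha⟩ := this
      simp only [hiu, ← ha]
      rfl
    have h2 := Finset.card_le_card h1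
    have h3 := Finset.le_card_sdiff
      ((Finset.univ.filter fun x : Fin k × U => (P.f x.1 x.2).isLeft = true).image
          fun x => P.f x.1 x.2)
      (Finset.univ.map ⟨Sum.inl, Sum.inl_injective⟩ : Finset (A ⊕ Fin (N - t)))
    rw [Finset.card_image_of_injective _ ginj, Finset.card_map, Finset.card_univ, htot,
      ← hN] at h3
    rw [Set.ncard_eq_toFinset_card']
    omega
  have : (t : ℝ) ≤ P.uncovered.ncard := by exact_mod_cast hunc
  linarith

/-- the cycle of length four -/
def C4 : SimpleGraph (Fin 4) where
  Adj i j := (i.val + j.val) % 2 = 1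
  symm := ⟨fun i j h => by rw [add_comm]; exact h⟩
  loopless := ⟨fun i h => by omega⟩

instance : DecidableRel C4.Adj := fun i j => inferInstanceAs (Decidable ((i.val + j.val) % 2 = 1))

/-- the cycle of length four is a connected bipartite graph with equal classes -/
theorem four : ∃ (H : SimpleGraph (Fin 4)) (col : H.Coloring Bool), H.Connected ∧
    ¬ H.IsAcyclic ∧ {u | col u = true}.ncard = {u | col u = false}.ncard := by
  refine ⟨C4, SimpleGraph.Coloring.mk (fun i => decide (i.val % 2 = 0)) ?_, ?_, ?_, ?_⟩
  · intro i j hij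
    have : (i.val + j.val) % 2 = 1 := hij
    intro h
    have h' : (i.val % 2 = 0) ↔ (j.val % 2 = 0) := by simpa using h
    omega
  · rw [SimpleGraph.connected_iff]
    refine ⟨?_, ⟨0⟩⟩
    have h : ∀ i : Fin 4, C4.Reachable 0 i := by
      intro i
      fin_cases i
      · exact SimpleGraph.Reachable.refl _
      · exact SimpleGraph.Adj.reachable (by decide)
      · exact (SimpleGraph.Adj.reachable (by decide : C4.Adj 0 1)).trans
          (SimpleGraph.Adj.reachable (by decide : C4.Adj 1 2))
      · exact SimpleGraph.Adj.reachable (by decide)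
    intro i j
    exact (h i).symm.trans (h j)
  · intro hac
    refine hac (v := 0) (.cons (by decide : C4.Adj 0 1) (.cons (by decide : C4.Adj 1 2)
      (.cons (by decide : C4.Adj 2 3) (.cons (by decide : C4.Adj 3 0) .nil)))) ?_
    rw [SimpleGraph.Walk.isCycle_def]
    refine ⟨?_, by simp, ?_⟩
    · rw [SimpleGraph.Walk.isTrail_def]
      decide
    · decide
  · have e1 : {u : Fin 4 | decide (u.val % 2 = 0) = true} = {0, 2} := by
      ext u; fin_cases u <;> simp
    have e2 : {u : Fin 4 | decide (u.val % 2 = 0) = false} = {1, 3} := by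
      ext u; fin_cases u <;> simp
    show {u : Fin 4 | decide (u.val % 2 = 0) = true}.ncard =
      {u : Fin 4 | decide (u.val % 2 = 0) = false}.ncard
    rw [e1, e2, Set.ncard_pair (by decide), Set.ncard_pair (by decide)]

/-- **Q1 is false**: for every connected bipartite graph `H` with equal classes which is not a
tree, for every `r ≥ 2` and every `0 < c ≤ 1/2` no constant `C` works. -/
theorem result :
    (∀ (U : Type) [Fintype U] (H : SimpleGraph U) (col : H.Coloring Bool), H.Connected →
      ¬ H.IsAcyclic → {u | col u = true}.ncard = {u | col u = false}.ncard →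
      ∀ (r : ℕ) (c : ℝ), 2 ≤ r → 0 < c → c ≤ 1 / 2 → ¬ Holds H r c) ∧ ¬ Q1 := by
  refine ⟨fun U _ H col h1 h2 h3 r c hr hc0 hc1 => not_holds H col h1 h2 h3 r c hr hc0 hc1, ?_⟩
  intro hQ
  obtain ⟨H, col, h1, h2, h3⟩ := four
  exact not_holds H col h1 h2 h3 2 (1 / 2) le_rfl (by norm_num) le_rfl
    (hQ (Fin 4) H (by simpa using col.colorable) 2 (1 / 2) le_rfl (by norm_num) (by norm_num))

end Pool.Agent.Results.MP_b9e70b_co.BalancedCyclicFails
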